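import Pool.Agent.MHP.StmtsC

/-!
# Squad MHP (MP_09e7c7_co), row MSO: definable properties
-/

set_option autoImplicit false

namespace Pool.Agent.MHP.H65

open Pool.Agent.HMT

/-- row MSO: a property defined by a sentence has a row dependence -/
theorem mso (hx : CmxStmt) (hf : FixStmt) : MsoStmt := by
  intro P g φ hφ
  obtain ⟨Q, hQ, τ, R, h⟩ := hx 0 0 0 φ
  refine hf P g ⟨Q, hQ, fun A => τ A ⟨Fin.elim0, Fin.elim0, Fin.elim0⟩, R, ?_⟩
  intro X A
  have h1 := h X A Fin.elim0 Fin.elim0 Fin.elim0 (fun k => k.elim0)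
  have hl : vl X A (Fin.elim0 : Fin 0 → VG X A) Fin.elim0 Fin.elim0 =
      ⟨Fin.elim0, Fin.elim0, Fin.elim0⟩ := by
    unfold vl
    congr 1 <;> · funext k; exact k.elim0
  have hr : vr X A (Fin.elim0 : Fin 0 → VG X A) Fin.elim0 Fin.elim0 =
      ⟨Fin.elim0, Fin.elim0, Fin.elim0⟩ := by
    unfold vr
    congr 1 <;> · funext k; exact k.elim0
  rw [hl, hr] at h1
  exact (hφ _ (glue X.G X.r A.G A.r)).trans h1

end Pool.Agent.MHP.H65
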